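import Pool.Agent.H53.UK.Targets

set_option autoImplicit false

namespace Pool.Agent.H45.UK

open Finset Pool.Agent.H53.UK

theorem pf_RSU : T_RSU := by
  intro m μ T
  classical
  let F : {r : Fin m → Fin μ // ∀ c ∈ T, c ∈ AL r} × (T → Fin μ) → (Fin m → Fin μ) :=
    fun p j => if h : (j, p.1.1 j) ∈ T then p.2 ⟨(j, p.1.1 j), h⟩ else p.1.1 j
  have hF : Function.Injective F := by
    rintro ⟨⟨r, hr⟩, h⟩ ⟨⟨r', hr'⟩, h'⟩ he
    have key : ∀ {r r' : Fin m → Fin μ}, (∀ c ∈ T, c ∈ AL r') → ∀ j, (j, r j) ∈ T →
        r' j = r j := by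
      intro r r' hr' j hj
      have := hr' _ hj
      simpa [AL, eq_comm] using this
    have hrr : r = r' := by
      funext j
      by_cases h1 : (j, r j) ∈ T
      · exact (key hr' j h1).symm
      by_cases h2 : (j, r' j) ∈ T
      · exact key hr j h2
      have := congrFun he j
      simpa [F, h1, h2] using this
    subst hrr
    have hh : h = h' := by
      funext ⟨c, hc⟩
      have h1 : r c.1 = c.2 := by
        have := hr _ hc
        simpa [AL, eq_comm] using this
      have hce : c = (c.1, r c.1) := by rw [h1]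
      have hc2 : (c.1, r c.1) ∈ T := hce ▸ hc
      have := congrFun he c.1
      simp only [F, dif_pos hc2] at this
      have e2 : (⟨c, hc⟩ : T) = ⟨(c.1, r c.1), hc2⟩ := Subtype.ext hce
      rw [e2]
      exact this
    rw [hh]
  have := Nat.card_le_card_of_injective F hF
  rw [Nat.card_prod] at this
  have hc : Nat.card (T → Fin μ) = μ ^ T.card := by
    rw [Nat.card_fun]
    simp
  rwa [hc] at this

end Pool.Agent.H45.UK
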